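import Pool.Agent.IC65.RMain

/-!
# MP_3f30ee_pr: isometry of random matrices with independent, unnormalised subgaussian columns

Q1 holds, with `C(K) = C K` for an absolute constant `C`: for every random `m × n` matrix `A` with independent
mean zero columns of `ψ₂` norm at most `K`, and every set `T ⊆ ℝⁿ`,
`E sup_{x ∈ T} | ‖A x‖ - ‖D x‖ | ≤ C K E sup_{x ∈ T} |⟨g,x⟩|`.
-/

open MeasureTheory ProbabilityTheory
open scoped RealInnerProductSpace ENNReal

namespace Pool.Agent.Results.MP_3f30ee_pr.ColumnIsometry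

/-- the `i`-th column of a matrix, as a vector of the Euclidean space -/
def column {m n : ℕ} (M : Matrix (Fin m) (Fin n) ℝ) (i : Fin n) : EuclideanSpace ℝ (Fin m) :=
  WithLp.toLp 2 fun r => M r i

/-- the Euclidean norm of `M x` -/
noncomputable def normMul {m n : ℕ} (M : Matrix (Fin m) (Fin n) ℝ)
    (x : EuclideanSpace ℝ (Fin n)) : ℝ :=
  ‖(WithLp.toLp 2 (M.mulVec x) : EuclideanSpace ℝ (Fin m))‖

/-- the diagonal matrix `D` whose diagonal entries are the lengths of the columns of `M` -/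
noncomputable def colNorms {m n : ℕ} (M : Matrix (Fin m) (Fin n) ℝ) :
    Matrix (Fin n) (Fin n) ℝ :=
  Matrix.diagonal fun i => ‖column M i‖

/-- `E sup_{x ∈ T} | ‖A x‖ - ‖D x‖ |` -/
noncomputable def expDeviation {Ω : Type*} [MeasurableSpace Ω] (P : Measure Ω) {m n : ℕ}
    (A : Ω → Matrix (Fin m) (Fin n) ℝ) (T : Set (EuclideanSpace ℝ (Fin n))) : ℝ≥0∞ :=
  ∫⁻ ω, ⨆ x ∈ T, ENNReal.ofReal |normMul (A ω) x - normMul (colNorms (A ω)) x| ∂P

/-- the Gaussian complexity `γ(T) = E sup_{x ∈ T} |⟨g,x⟩|`, `g` standard Gaussian in `ℝⁿ` -/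
noncomputable def gaussComplexity {n : ℕ} (T : Set (EuclideanSpace ℝ (Fin n))) : ℝ≥0∞ :=
  ∫⁻ g, ⨆ x ∈ T, ENNReal.ofReal |⟪g, x⟫| ∂stdGaussian (EuclideanSpace ℝ (Fin n))

/-- the hypotheses on `A`: a random matrix whose columns are independent, have mean zero and `ψ₂` norm at
most `K` -/
def SubgaussianColumns {Ω : Type*} [MeasurableSpace Ω] (P : Measure Ω) {m n : ℕ}
    (A : Ω → Matrix (Fin m) (Fin n) ℝ) (K : ℝ) : Prop :=
  (∀ r i, Measurable fun ω => A ω r i) ∧
  iIndepFun (fun i ω => column (A ω) i) P ∧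
  (∀ r i, ∫ ω, A ω r i ∂P = 0) ∧
  ∀ i, IC65.psi2v P (fun ω => column (A ω) i) ≤ ENNReal.ofReal K

theorem lin_column {m n : ℕ} (M : Matrix (Fin m) (Fin n) ℝ) (x : EuclideanSpace ℝ (Fin n)) :
    ‖IC65.lin (column M) x‖ = normMul M x := by
  unfold normMul
  congr 1
  ext r
  simp only [IC65.lin, column, Matrix.mulVec, dotProduct,
    WithLp.ofLp_sum, WithLp.ofLp_smul, Finset.sum_apply, Pi.smul_apply, smul_eq_mul]
  exact Finset.sum_congr rfl fun i _ => mul_comm _ _

theorem wn_column {m n : ℕ} (M : Matrix (Fin m) (Fin n) ℝ) (x : EuclideanSpace ℝ (Fin n)) :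
    IC65.wn (IC65.len (column M)) x = normMul (colNorms M) x := by
  rw [IC65.wn_eq_norm]
  unfold normMul
  congr 1
  ext i
  simp [IC65.len, colNorms, Matrix.mulVec_diagonal]

/-- There is an absolute constant `C` such that
`E sup_{x ∈ T} | ‖A x‖ - ‖D x‖ | ≤ C K γ(T)` for every random matrix `A` whose columns are independent, have mean
zero and satisfy `‖A_i‖_{ψ₂} ≤ K`, and for every set `T`. -/
theorem result :
    ∃ C : ℝ, 0 < C ∧ ∀ (Ω : Type*) [MeasurableSpace Ω] (P : Measure Ω) [IsProbabilityMeasure P]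
      (m n : ℕ) (A : Ω → Matrix (Fin m) (Fin n) ℝ) (K : ℝ) (T : Set (EuclideanSpace ℝ (Fin n))),
      0 < K → SubgaussianColumns P A K →
      expDeviation P A T ≤ ENNReal.ofReal (C * K) * gaussComplexity T := by
  obtain ⟨C, hC, H⟩ := IC65.main
  refine ⟨C, hC, ?_⟩
  rintro Ω _ P _ m n A K T hK ⟨hA, hind, h0, hpsi⟩
  have hmeas : ∀ i, Measurable fun ω => column (A ω) i := by
    intro i
    unfold column
    have h1 : Measurable fun ω => fun r => A ω r i := measurable_pi_iff.2 fun r => hA r i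
    exact (WithLp.measurable_toLp 2 _).comp h1
  have hmean : ∀ i, ∫ ω, column (A ω) i ∂P = 0 := by
    intro i
    have hint := IC65.integrable_of_psi2v (hmeas i) hK (hpsi i)
    ext r
    rw [eval_integral_piLp (fun r => hint.eval_piLp r)]
    simpa [column] using h0 r i
  have h := H P (fun i ω => column (A ω) i) hmeas hind hmean hK hpsi T
  unfold gaussComplexity expDeviation
  have h2 : ∀ ω x, |normMul (A ω) x - normMul (colNorms (A ω)) x| =
      |‖IC65.lin (fun i => column (A ω) i) x‖ - IC65.wn (IC65.len fun i => column (A ω) i) x| := by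
    intro ω x
    rw [← lin_column, ← wn_column]
  simp only [h2]
  exact h

end Pool.Agent.Results.MP_3f30ee_pr.ColumnIsometry
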